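import Mathlib

/-! Abelian varieties over an algebraically closed field, in projective space. -/

namespace Pool.Agent.Lib.MP_651af7_nt.Ds

open MvPolynomial

variable {L : Type} [Field L] {ι κ : Type}

/-- `J` is a homogeneous prime ideal and `co` is a bijection, by homogeneous coordinates, from `A`
to the zeros of `J` in projective space. -/
structure Pts (J : Ideal (MvPolynomial ι L)) {A : Type} (co : A → ι → L) : Prop where
  prime : J.IsPrime
  hom : ∀ P ∈ J, ∀ d, homogeneousComponent d P ∈ J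
  ne : ∀ p, co p ≠ 0
  zero : ∀ p, ∀ P ∈ J, eval (co p) P = 0
  bij : ∀ v : ι → L, v ≠ 0 → (∀ P ∈ J, eval v P = 0) → ∃! p, ∃ c : L, v = c • co p

/-- Subtraction is a morphism: near each pair of points it is given by bihomogeneous forms. -/
def SubMor {A : Type} [AddCommGroup A] (co : A → ι → L) : Prop :=
  ∀ p₀ q₀, ∃ (d : ℕ × ℕ) (Ψ : ι → MvPolynomial (ι ⊕ ι) L),
    (∀ a, (Ψ a).IsWeightedHomogeneous (Sum.elim (fun _ => (1, 0)) fun _ => (0, 1)) d) ∧
    (∃ a, eval (Sum.elim (co p₀) (co q₀)) (Ψ a) ≠ 0) ∧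
    ∀ p q, ∃ c : L, ∀ a, eval (Sum.elim (co p) (co q)) (Ψ a) = c * co (p - q) a

/-- The projective variety of `J` is an abelian variety. -/
def Abelian (J : Ideal (MvPolynomial ι L)) : Prop :=
  ∃ (A : Type) (_ : AddCommGroup A) (co : A → ι → L), Pts J co ∧ SubMor co

end Pool.Agent.Lib.MP_651af7_nt.Ds
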