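import Pool.Agent.Lib.MP_651af7_nt.Ds.Desc
import Pool.Agent.Lib.MP_651af7_nt.Av.Tr

/-! Change of the ground field: tangent spaces, smoothness, exceptional forms. -/

namespace Pool.Agent.Lib.MP_651af7_nt.Ds

open MvPolynomial Bx Module

set_option linter.unusedSectionVars false

variable {k K F : Type} [Field k] [Field K] [Field F] [Algebra k K] {ι : Type} [Fintype ι]
  {I : Ideal (MvPolynomial ι k)}

/-- Induction over the span; Leibniz rule (`pderiv_mul`, `pderiv_map`, `aeval_map_algebraMap`). -/
theorem tsp_map [Algebra k F] [Algebra K F] [IsScalarTower k K F] {x : ι → F}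
    (hx : ∀ P ∈ I, aeval x P = 0) :
    tsp (I.map (MvPolynomial.map (algebraMap k K))) x = tsp I x := by
  refine le_antisymm (fun v hv P hP => ?_) fun v hv P hP => ?_
  · have := hv _ (Ideal.mem_map_of_mem _ hP)
    simpa only [pderiv_map, aeval_map_algebraMap] using this
  · refine And.right (a := aeval x P = 0) ?_
    induction hP using Submodule.span_induction with
    | mem Q hQ =>
      obtain ⟨Q, hQ, rfl⟩ := hQ
      simp only [pderiv_map, aeval_map_algebraMap]
      exact ⟨hx Q hQ, hv Q hQ⟩
    | zero => simp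
    | add Q R _ _ h1 h2 =>
      simp only [map_add, add_mul, Finset.sum_add_distrib, h1.1, h1.2, h2.1, h2.2, add_zero,
        and_self]
    | smul c Q _ h1 =>
      simp only [smul_eq_mul, pderiv_mul, map_add, map_mul, h1.1, mul_zero, zero_add, mul_assoc,
        ← Finset.mul_sum, h1.2, and_self]

theorem zero_map [Algebra k F] [Algebra K F] [IsScalarTower k K F] {x : ι → F} :
    (∀ P ∈ I.map (MvPolynomial.map (algebraMap k K)), aeval x P = 0) ↔ ∀ P ∈ I, aeval x P = 0 := by
  refine ⟨fun h P hP => ?_, fun h P hP => ?_⟩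
  · simpa only [aeval_map_algebraMap] using h _ (Ideal.mem_map_of_mem _ hP)
  · refine (Ideal.map_le_iff_le_comap (K := RingHom.ker (aeval (R := K) x))).2 (fun Q hQ => ?_) hP
    rw [Ideal.mem_comap, RingHom.mem_ker, aeval_map_algebraMap]
    exact h Q hQ

theorem tsp_alg [Algebra k F] (f : K →ₐ[k] F) {x v : ι → K} :
    (fun a => f (v a)) ∈ tsp I (fun a => f (x a)) ↔ v ∈ tsp I x := by
  refine forall₂_congr fun P _ => ?_
  simp only [← comp_aeval_apply, ← map_mul, ← map_sum, map_eq_zero]

/-- A basis `b` of `tsp I x` stays independent (`linearIndependent_algebraMap_comp_iff`) and spans: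
expand the coordinates of `v` in a basis of `F` over `K`. -/
theorem finrank_tsp [Algebra k F] [Algebra K F] [IsScalarTower k K F] (x : ι → K) :
    finrank F (tsp I fun a => algebraMap K F (x a)) = finrank K (tsp I x) := by
  classical
  let b := finBasis K (tsp I x)
  let w : Fin (finrank K (tsp I x)) → ι → F := fun i => algebraMap K F ∘ (b i).1
  have hw : LinearIndependent F w := linearIndependent_algebraMap_comp_iff.2
    (b.linearIndependent.map' (tsp I x).subtype (Submodule.ker_subtype _))
  have hs : Submodule.span F (Set.range w) = tsp I fun a => algebraMap K F (x a) := by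
    refine le_antisymm (Submodule.span_le.2 ?_) fun v hv => ?_
    · rintro _ ⟨i, rfl⟩
      exact (tsp_alg (IsScalarTower.toAlgHom k K F)).2 (b i).2
    · let B := Basis.ofVectorSpace K F
      have h1 : ∀ j, (fun a => B.repr (v a) j) ∈ tsp I x := fun j P hP => by
        have := congrArg (B.coord j) (hv P hP)
        simp only [show ∀ Q : MvPolynomial ι k, aeval (fun a => algebraMap K F (x a)) Q =
          algebraMap K F (aeval x Q) from fun Q => aeval_algebraMap_apply F x Q,
          ← Algebra.smul_def, map_sum, map_smul, map_zero, smul_eq_mul] at this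
        exact this
      have h2 : ∀ u ∈ tsp I x, algebraMap K F ∘ u ∈ Submodule.span F (Set.range w) := by
        intro u hu
        have e : algebraMap K F ∘ u = ∑ i, algebraMap K F (b.repr ⟨u, hu⟩ i) • w i := by
          funext a
          have := congrArg (fun z : tsp I x => algebraMap K F (z.1 a)) (b.sum_repr ⟨u, hu⟩)
          simp only [Submodule.coe_sum, Submodule.coe_smul, Finset.sum_apply, Pi.smul_apply,
            smul_eq_mul, map_sum, map_mul] at this
          simp only [Function.comp_apply, Finset.sum_apply, Pi.smul_apply, smul_eq_mul, w]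
          exact this.symm
        rw [e]
        exact Submodule.sum_mem _ fun i _ =>
          Submodule.smul_mem _ _ (Submodule.subset_span ⟨i, rfl⟩)
      have e : v = ∑ j ∈ Finset.univ.biUnion fun a => (B.repr (v a)).support,
          B j • (algebraMap K F ∘ fun a => B.repr (v a) j) := by
        funext a
        have := B.linearCombination_repr (v a)
        rw [Finsupp.linearCombination_apply, Finsupp.sum_of_support_subset _
          (Finset.subset_biUnion_of_mem (fun a => (B.repr (v a)).support) (Finset.mem_univ a)) _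
          (fun _ _ => by simp)] at this
        simp only [Finset.sum_apply, Pi.smul_apply, Function.comp_apply, smul_eq_mul,
          mul_comm (B _), ← Algebra.smul_def]
        exact this.symm
      rw [e]
      exact Submodule.sum_mem _ fun j _ => Submodule.smul_mem _ _ (h2 _ (h1 j))
  rw [← hs, finrank_span_eq_card hw, Fintype.card_fin]

theorem tan2_mem {P : MvPolynomial ι K} (h : ∀ l : K →ₗ[k] k, Av.trCw l P ∈ I) :
    P ∈ I.map (MvPolynomial.map (algebraMap k K)) := by
  classical
  let B := Basis.ofVectorSpace k K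
  have e : P = ∑ j ∈ P.support.biUnion fun μ => (B.repr (coeff μ P)).support,
      C (B j) * MvPolynomial.map (algebraMap k K) (Av.trCw (B.coord j) P) := by
    ext μ
    simp only [coeff_sum, coeff_C_mul, coeff_map, Av.coeff_trCw, Basis.coord_apply]
    by_cases hμ : μ ∈ P.support
    · conv_lhs => rw [← B.linearCombination_repr (coeff μ P), Finsupp.linearCombination_apply,
        Finsupp.sum_of_support_subset _
          (Finset.subset_biUnion_of_mem (fun μ => (B.repr (coeff μ P)).support) hμ)
          (fun i a => a • B i) fun _ _ => zero_smul _ _]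
      exact Finset.sum_congr rfl fun j _ => by rw [Algebra.smul_def, mul_comm]
    · simp [notMem_support_iff.1 hμ]
  rw [e]
  exact Ideal.sum_mem _ fun j _ => Ideal.mul_mem_left _ _ (Ideal.mem_map_of_mem _ (h _))

/-- The extension is generated by the images of forms. -/
theorem hom_map (h : ∀ P ∈ I, ∀ d, homogeneousComponent d P ∈ I) :
    ∀ P ∈ I.map (MvPolynomial.map (algebraMap k K)), ∀ d,
      homogeneousComponent d P ∈ I.map (MvPolynomial.map (algebraMap k K)) := by
  refine fun P hP d => tan2_mem fun l => ?_
  have e : Av.trCw l (homogeneousComponent d P) = homogeneousComponent d (Av.trCw l P) := by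
    ext μ
    simp only [Av.coeff_trCw, coeff_homogeneousComponent]
    split_ifs <;> simp
  rw [e]
  exact h _ (Av.trCw_mem l hP) d

/-- `Θ = ∑ C (B j) * map (trCw (B.coord j) Θ)` for a basis `B` of `K` over `k`, so some
`Av.trCw l Θ ∉ I`; and `eval x (trCw l Θ) = l (eval (algebraMap ∘ x) Θ)`. -/
theorem exists_theta [FiniteDimensional k K] {Θ : MvPolynomial ι K} {t : ℕ}
    (h : Θ.IsHomogeneous t) (h' : Θ ∉ I.map (MvPolynomial.map (algebraMap k K))) :
    ∃ Θ₀ : MvPolynomial ι k, Θ₀.IsHomogeneous t ∧ Θ₀ ∉ I ∧
      ∀ x : ι → k, eval x Θ₀ ≠ 0 → eval (fun a => algebraMap k K (x a)) Θ ≠ 0 := by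
  obtain ⟨l, hl⟩ : ∃ l : K →ₗ[k] k, Av.trCw l Θ ∉ I := by
    by_contra! hc
    exact h' (tan2_mem hc)
  refine ⟨_, fun μ hμ => h fun h0 => hμ ?_, hl, fun x hx h0 => hx ?_⟩
  · rw [Av.coeff_trCw, h0, map_zero]
  · have e : eval x (Av.trCw l Θ) = l (eval (fun a => algebraMap k K (x a)) Θ) := by
      rw [Av.trCw, map_sum, eval_eq, map_sum]
      refine Finset.sum_congr rfl fun μ _ => ?_
      rw [eval_monomial, mul_comm, ← smul_eq_mul, ← map_smul, Algebra.smul_def, mul_comm]
      simp [Finsupp.prod]
    rw [e, h0, map_zero]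

variable [Algebra K (AlgebraicClosure k)] [IsScalarTower k K (AlgebraicClosure k)]

/-- The ideal of the variety over `K`. -/
noncomputable abbrev up (K : Type) [Field K] [Algebra K (AlgebraicClosure k)] (I : Ideal (MvPolynomial ι k)) :
    Ideal (MvPolynomial ι K) :=
  dn K (I.map (MvPolynomial.map (algebraMap k (AlgebraicClosure k))))

/-- `dn_map`, `map_map`. -/
theorem up_map : (up K I).map (MvPolynomial.map (algebraMap K (AlgebraicClosure k))) =
    I.map (MvPolynomial.map (algebraMap k (AlgebraicClosure k))) := by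
  refine dn_map (s := MvPolynomial.map (algebraMap k (AlgebraicClosure k)) '' I) rfl ?_
  rintro _ ⟨P, -, rfl⟩
  exact ⟨MvPolynomial.map (algebraMap k K) P, by rw [map_map, ← IsScalarTower.algebraMap_eq]⟩

theorem map_le_up : I.map (MvPolynomial.map (algebraMap k K)) ≤ up K I := by
  refine Ideal.map_le_iff_le_comap.2 fun P hP => ?_
  rw [Ideal.mem_comap, mem_dn, map_map, ← IsScalarTower.algebraMap_eq]
  exact Ideal.mem_map_of_mem _ hP

include k in
theorem tan3_closure : IsAlgClosure K (AlgebraicClosure k) :=
  ⟨inferInstance, Algebra.IsAlgebraic.tower_top (K := k) K⟩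

/-- The two algebraic closures are isomorphic over `K`. -/
theorem tan3_equiv : Nonempty (AlgebraicClosure k ≃ₐ[K] AlgebraicClosure K) :=
  have := tan3_closure (k := k) (K := K)
  ⟨IsAlgClosure.equiv K (AlgebraicClosure k) (AlgebraicClosure K)⟩

/-- With `e = IsAlgClosure.equiv K (AlgebraicClosure k) (AlgebraicClosure K)` the extension to
`AlgebraicClosure K` is the image under `mapEquiv _ e` of the extension to `AlgebraicClosure k`
(`up_map`, `Ideal.map_map`, `Ideal.map_isPrime_of_equiv`). -/
theorem var_up (h : Var I) : Var (up K I) := by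
  refine ⟨dn_hom (hom_map h.hom), ?_⟩
  obtain ⟨e⟩ := tan3_equiv (k := k) (K := K)
  have hp := h.prime
  rw [← up_map (K := K)] at hp
  have h2 := Ideal.map_isPrime_of_equiv (MvPolynomial.mapEquiv ι e.toRingEquiv)
    (I := (up K I).map (MvPolynomial.map (algebraMap K (AlgebraicClosure k))))
  have h3 : ((MvPolynomial.mapEquiv ι e.toRingEquiv :
      MvPolynomial ι (AlgebraicClosure k) →+* MvPolynomial ι (AlgebraicClosure K))).comp
      (MvPolynomial.map (algebraMap K (AlgebraicClosure k))) =
      MvPolynomial.map (algebraMap K (AlgebraicClosure K)) := by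
    refine MvPolynomial.ringHom_ext (fun c => ?_) fun a => ?_
    · simp
    · simp
  rw [← h3, ← Ideal.map_map]
  exact h2

/-- Make `AlgebraicClosure K` an algebra over `AlgebraicClosure k` by `e`; `x = e ∘ x'`;
`finrank_tsp`, `tsp_map` twice, `up_map`. -/
theorem smooth_up {g : ℕ} (h : Smooth I g) : Smooth (up K I) g := by
  intro x hx0 hx
  obtain ⟨e⟩ := tan3_equiv (k := k) (K := K)
  let _ : Algebra (AlgebraicClosure k) (AlgebraicClosure K) := (e : _ →+* _).toAlgebra
  have : IsScalarTower K (AlgebraicClosure k) (AlgebraicClosure K) :=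
    IsScalarTower.of_algebraMap_eq fun c => (e.commutes c).symm
  have hxe : x = fun a => algebraMap (AlgebraicClosure k) (AlgebraicClosure K) (e.symm (x a)) :=
    funext fun a => (e.apply_symm_apply (x a)).symm
  have hy0 : (fun a => e.symm (x a)) ≠ 0 := fun h0 => hx0 (funext fun a => by
    have := congrFun h0 a
    simpa using this)
  have hy : ∀ P ∈ up K I, aeval (fun a => e.symm (x a)) P = 0 := fun P hP => by
    have := comp_aeval_apply x (e.symm : AlgebraicClosure K →ₐ[K] AlgebraicClosure k) P
    rw [hx P hP, map_zero] at this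
    exact this.symm
  have hy' : ∀ P ∈ I, aeval (fun a => e.symm (x a)) P = 0 := by
    rw [← zero_map (K := AlgebraicClosure k), ← up_map (K := K), zero_map]
    exact hy
  rw [hxe, finrank_tsp (K := AlgebraicClosure k), ← tsp_map (K := AlgebraicClosure k) hy, up_map,
    tsp_map hy']
  exact h _ hy0 hy'

theorem tan3_zero {x : ι → k} (hx : ∀ P ∈ I, eval x P = 0) :
    ∀ P ∈ I, aeval (fun a => algebraMap k (AlgebraicClosure k) (x a)) P = 0 := fun P hP => by
  have := comp_aeval_apply x (Algebra.ofId k (AlgebraicClosure k)) P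
  rw [aeval_eq_eval x, hx P hP, map_zero] at this
  exact this.symm

theorem tan3_zero_up {x : ι → k} (hx : ∀ P ∈ I, eval x P = 0) :
    ∀ P ∈ up K I, aeval (fun a => algebraMap k (AlgebraicClosure k) (x a)) P = 0 := by
  rw [← zero_map (K := AlgebraicClosure k), up_map, zero_map]
  exact tan3_zero hx

/-- Pass to `AlgebraicClosure k` (`zero_map`, `up_map`). -/
theorem zero_up {x : ι → k} (hx : ∀ P ∈ I, eval x P = 0) :
    ∀ P ∈ up K I, eval (fun a => algebraMap k K (x a)) P = 0 := fun P hP => by
  have h1 := comp_aeval_apply (fun a => algebraMap k K (x a))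
    (Algebra.ofId K (AlgebraicClosure k)) P
  have h2 := tan3_zero_up (K := K) hx P hP
  simp only [Algebra.ofId_apply, ← IsScalarTower.algebraMap_apply] at h1
  rw [h2, aeval_eq_eval] at h1
  exact (map_eq_zero _).1 h1

/-- `tsp_alg`, `tsp_map`, `up_map`. -/
theorem tsp_up {x v : ι → k} (hx : ∀ P ∈ I, eval x P = 0) (hv : v ∈ tsp I x) :
    (fun a => algebraMap k K (v a)) ∈ tsp (up K I) fun a => algebraMap k K (x a) := by
  rw [← tsp_alg (Algebra.ofId K (AlgebraicClosure k))]
  simp only [Algebra.ofId_apply, ← IsScalarTower.algebraMap_apply]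
  rw [← tsp_map (K := AlgebraicClosure k) (tan3_zero_up hx), up_map, tsp_map (tan3_zero hx)]
  exact (tsp_alg (Algebra.ofId k (AlgebraicClosure k))).2 hv

end Pool.Agent.Lib.MP_651af7_nt.Ds
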