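import Pool.Agent.Lib.MP_651af7_nt.Ds.Defs
import Pool.Agent.Lib.MP_651af7_nt.Av.Defs

/-! The model with forms of bidegree `(2, 2)`. -/

namespace Pool.Agent.Lib.MP_651af7_nt.Ds

open MvPolynomial

variable {L : Type} [Field L] {ι κ : Type}

/-- The change of coordinates from `co` to `co'` is a morphism: near each point it is given by
forms. -/
def Mor {A : Type} (co : A → ι → L) (co' : A → κ → L) : Prop :=
  ∀ p₀, ∃ (d : ℕ) (α : κ → MvPolynomial ι L), (∀ a, (α a).IsHomogeneous d) ∧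
    (∃ a, eval (co p₀) (α a) ≠ 0) ∧ ∀ p, ∃ c : L, ∀ a, eval (co p) (α a) = c * co' p a

/-- Sum and difference are given by one family of forms of bidegree `(2, 2)`. -/
def Sq {A : Type} [AddCommGroup A] (co : A → ι → L) (Φ : ι → ι → MvPolynomial (ι ⊕ ι) L) : Prop :=
  (∀ a b, (Φ a b).IsWeightedHomogeneous (Av.bw ι ι) (2, 2)) ∧ ∀ p q, ∃ c : L, c ≠ 0 ∧ ∀ a b,
    eval (Sum.elim (co p) (co q)) (Φ a b) = c * (co (p + q) a * co (p - q) b)

/-- The export of block 1. -/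
def HasModel {A : Type} [AddCommGroup A] (co : A → ι → L) : Prop :=
  ∃ (m : ℕ) (J' : Ideal (MvPolynomial (Fin m) L)) (co' : A → Fin m → L)
    (Φ : Fin m → Fin m → MvPolynomial (Fin m ⊕ Fin m) L),
    Pts J' co' ∧ Sq co' Φ ∧ Mor co co' ∧ Mor co' co

end Pool.Agent.Lib.MP_651af7_nt.Ds
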