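import Pool.Agent.Lib.MP_651af7_nt.Bx.Defs
import Pool.Agent.Lib.MP_651af7_nt.FinExt

/-! Change of the ground field: heights. -/

namespace Pool.Agent.Lib.MP_651af7_nt.Ds

open MvPolynomial Bx Module NumberField Height

set_option linter.unusedSectionVars false

variable {k K : Type} [Field k] [NumberField k] [Field K] [NumberField K] [Algebra k K]
  {ι α : Type} [Fintype ι] [Fintype α]

theorem ht1_val (v : FinitePlace k) (w : FinitePlace K)
    [w.maximalIdeal.asIdeal.LiesOver v.maximalIdeal.asIdeal] (a : k) :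
    w (algebraMap k K a) = v a ^ (w.maximalIdeal.asIdeal.ramificationIdx (𝓞 k) *
      w.maximalIdeal.asIdeal.inertiaDeg (𝓞 k)) := by
  have hp := v.maximalIdeal.isPrime
  have hq := w.maximalIdeal.isPrime
  rw [← w.norm_embedding_eq, ← v.norm_embedding_eq, FinitePlace.norm_embedding,
    FinitePlace.norm_embedding, HeightOneSpectrum.adicAbv_def, HeightOneSpectrum.adicAbv_def,
    ← IsDedekindDomain.HeightOneSpectrum.valuation_liesOver K v.maximalIdeal w.maximalIdeal,
    Ideal.ramificationIdx'_eq_ramificationIdx _ _ v.maximalIdeal.ne_bot, map_pow, mul_comm, pow_mul,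
    NNReal.coe_pow, ← NNReal.coe_pow _ (Ideal.inertiaDeg _ _)]
  congr 2
  by_cases h : v.maximalIdeal.valuation k a = 0
  · rw [h, map_zero, map_zero, zero_pow (Ideal.inertiaDeg_pos _ _).ne']
  · rw [WithZeroMulInt.toNNReal_neg_apply _ h, WithZeroMulInt.toNNReal_neg_apply _ h,
      ← Ideal.absNorm_pow_inertiaDeg v.maximalIdeal.asIdeal w.maximalIdeal.asIdeal, Nat.cast_pow,
      ← zpow_natCast, ← zpow_natCast, ← zpow_mul, ← zpow_mul, mul_comm]

/-- `n = e * f` for the primes above `v` (`HeightOneSpectrum.valuation_liesOver`,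
`Ideal.absNorm_eq_pow_inertiaDeg` or `Ideal.absNorm_algebraMap`, `Ideal.sum_ramification_inertia`);
`b w = v`. -/
theorem exists_above (v : FinitePlace k) : ∃ (T : Finset (FinitePlace K)) (n : FinitePlace K → ℕ),
    ∑ w ∈ T, n w = finrank k K ∧ (∀ w ∈ T, ∀ a : k, w (algebraMap k K a) = v a ^ n w) ∧
      ∀ w ∈ T, w.maximalIdeal.asIdeal.under (𝓞 k) = v.maximalIdeal.asIdeal := by
  classical
  have hp := v.maximalIdeal.isPrime
  let F : v.maximalIdeal.asIdeal.primesOver (𝓞 K) → FinitePlace K := fun q =>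
    FinitePlace.mk ⟨q.1, q.2.1, Ideal.ne_bot_of_mem_primesOver v.maximalIdeal.ne_bot q.2⟩
  have hF : ∀ q, (F q).maximalIdeal.asIdeal = q.1 := fun q => by
    rw [FinitePlace.maximalIdeal_mk]
  have hT : ∀ w ∈ Finset.univ.image F, w.maximalIdeal.asIdeal.LiesOver v.maximalIdeal.asIdeal :=
    fun w hw => by
      obtain ⟨q, -, rfl⟩ := Finset.mem_image.1 hw
      rw [hF]
      exact q.2.2
  refine ⟨Finset.univ.image F, fun w => w.maximalIdeal.asIdeal.ramificationIdx (𝓞 k) *
    w.maximalIdeal.asIdeal.inertiaDeg (𝓞 k), ?_, fun w hw a => ?_, fun w hw => (hT w hw).over.symm⟩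
  · rw [Finset.sum_image fun q _ q' _ h => Subtype.ext (by rw [← hF, ← hF, h])]
    simp only [hF]
    rw [Ideal.sum_ramification_inertia_eq_finrank, IsFractionRing.finrank_eq (𝓞 k) k (𝓞 K) K]
  · have := hT w hw
    exact ht1_val v w a

theorem ht2_sup {β : Type} [Finite β] [Nonempty β] (f : β → ℝ) (hf : ∀ b, 0 ≤ f b) (n : ℕ) :
    ⨆ b, f b ^ n = (⨆ b, f b) ^ n := by
  obtain ⟨b, hb⟩ := exists_eq_ciSup_of_finite (f := f)
  refine le_antisymm (ciSup_le fun c => pow_le_pow_left₀ (hf c) (Finite.le_ciSup f c) n) ?_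
  rw [← hb]
  exact Finite.le_ciSup (fun b => f b ^ n) b

/-- `x ↦ x ^ n` is monotone and commutes with finite suprema (also for `n = 0` or empty index
types one may assume what is needed: `hx`, `hD` give non-empty index types). -/
theorem lam_pow {v : AbsoluteValue k ℝ} {w : AbsoluteValue K ℝ} {n : ℕ}
    (h : ∀ a : k, w (algebraMap k K a) = v a ^ n) {D : α → MvPolynomial ι k} {e : ℕ} {x : ι → k}
    (hx : x ≠ 0) (hD : (fun j => eval x (D j)) ≠ 0) :
    lam w (fun j => MvPolynomial.map (algebraMap k K) (D j)) e (fun a => algebraMap k K (x a)) =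
      n * lam v D e x := by
  have hι : Nonempty ι := by
    obtain ⟨i, -⟩ := Function.ne_iff.mp hx
    exact ⟨i⟩
  have hα : Nonempty α := by
    obtain ⟨i, -⟩ := Function.ne_iff.mp hD
    exact ⟨i⟩
  have e1 : ∀ j, eval (fun a => algebraMap k K (x a)) (MvPolynomial.map (algebraMap k K) (D j)) =
      algebraMap k K (eval x (D j)) := fun j => by
    rw [eval_map, ← eval₂_id, eval₂_comp_left]
    rfl
  simp only [lam, e1, h]
  rw [ht2_sup (fun a => v (x a)) (fun _ => v.nonneg _),
    ht2_sup (fun j => v (eval x (D j))) (fun _ => v.nonneg _), ← pow_mul, mul_comm n e, pow_mul,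
    ← div_pow, Real.log_pow]

/-- The union of the sets of `exists_above`, which are disjoint (`maximalIdeal_injective`). -/
theorem sum_fin (S : Finset (FinitePlace k)) : ∃ T : Finset (FinitePlace K),
    ∀ (D : α → MvPolynomial ι k) (e : ℕ) (x : ι → k), x ≠ 0 → (fun j => eval x (D j)) ≠ 0 →
      ∑ w ∈ T, lam w.1 (fun j => MvPolynomial.map (algebraMap k K) (D j)) e
        (fun a => algebraMap k K (x a)) = finrank k K * ∑ v ∈ S, lam v.1 D e x := by
  classical
  choose T n h1 h2 h3 using fun v : FinitePlace k => exists_above (K := K) v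
  refine ⟨S.biUnion T, fun D e x hx hD => ?_⟩
  rw [Finset.sum_biUnion, Finset.mul_sum]
  · refine Finset.sum_congr rfl fun v _ => ?_
    rw [← h1 v, Nat.cast_sum, Finset.sum_mul]
    exact Finset.sum_congr rfl fun w hw => lam_pow (h2 v w hw) hx hD
  · intro v _ v' _ hne
    refine Finset.disjoint_left.2 fun w hw hw' => hne (FinitePlace.maximalIdeal_injective ?_)
    exact IsDedekindDomain.HeightOneSpectrum.ext ((h3 v w hw).symm.trans (h3 v' w hw'))

/-- `Final.prod_emb`, `Final.prod_emb_comp` applied to the exponential of `lam`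
(`InfinitePlace.comap`, `lam_pow` with `n = 1`). -/
theorem sum_inf (D : α → MvPolynomial ι k) (e : ℕ) {x : ι → k} (hx : x ≠ 0)
    (hD : (fun j => eval x (D j)) ≠ 0) :
    ∑ w : InfinitePlace K, w.mult * lam w.1 (fun j => MvPolynomial.map (algebraMap k K) (D j)) e
      (fun a => algebraMap k K (x a)) =
      finrank k K * ∑ v : InfinitePlace k, v.mult * lam v.1 D e x := by
  have h1 := Pool.Agent.MP_651af7_nt.Final.prod_emb fun w : InfinitePlace K => Real.exp (lam w.1
    (fun j => MvPolynomial.map (algebraMap k K) (D j)) e fun a => algebraMap k K (x a))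
  have h2 := Pool.Agent.MP_651af7_nt.Final.prod_emb fun v : InfinitePlace k => Real.exp (lam v.1 D e x)
  have h3 := Pool.Agent.MP_651af7_nt.Final.prod_emb_comp (L := K) fun σ : k →+* ℂ =>
    Real.exp (lam (InfinitePlace.mk σ).1 D e x)
  have h4 : ∀ τ : K →+* ℂ, lam (InfinitePlace.mk τ).1
      (fun j => MvPolynomial.map (algebraMap k K) (D j)) e (fun a => algebraMap k K (x a)) =
      lam (InfinitePlace.mk (τ.comp (algebraMap k K))).1 D e x := fun τ => by
    have := lam_pow (v := (InfinitePlace.mk (τ.comp (algebraMap k K))).1)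
      (w := (InfinitePlace.mk τ).1) (n := 1) (e := e) (fun a => by rw [pow_one]; rfl) hx hD
    rwa [Nat.cast_one, one_mul] at this
  simp only [h4] at h1
  rw [h3, h2] at h1
  simp only [← Real.exp_nat_mul, ← Real.exp_sum] at h1
  exact (Real.exp_injective h1).symm

/-- `Final.logHeight_algebraMap`, `RingHom.map_det`. -/
theorem hK_alg {g : ℕ} (x : ι → k) (β : Fin (g + 1) → ι → k) :
    hK (fun a => algebraMap k K (x a)) (fun l a => algebraMap k K (β l a)) =
      finrank k K * hK x β := by
  have e : minors (fun l a => algebraMap k K (β l a)) =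
      fun S => algebraMap k K (minors β S) := by
    funext S
    simp only [minors, RingHom.map_det]
    rfl
  simp only [hK]
  rw [e, Pool.Agent.MP_651af7_nt.Final.logHeight_algebraMap,
    Pool.Agent.MP_651af7_nt.Final.logHeight_algebraMap]
  ring

end Pool.Agent.Lib.MP_651af7_nt.Ds
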