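import Pool.Agent.Lib.MP_651af7_nt.Ds.Iface
import Pool.Agent.Lib.MP_651af7_nt.Bx.Defs

/-! Isomorphic models are birational. -/

namespace Pool.Agent.Lib.MP_651af7_nt.Ds

open MvPolynomial Bx

set_option linter.unusedSectionVars false

variable {L : Type} [Field L] [IsAlgClosed L] {ι κ A : Type} [Finite ι] [Finite κ] [Nonempty A]
  {J : Ideal (MvPolynomial ι L)} {J' : Ideal (MvPolynomial κ L)} {co : A → ι → L} {co' : A → κ → L}

/-- Nullstellensatz (`vanishingIdeal_zeroLocus_eq_radical`, `Ideal.IsPrime.radical`); a zero of `J`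
is `c • co p` (for the zero vector take `c = 0`), `Av.aeval_mul_of_hom`. -/
theorem Pts.mem_iff (h : Pts J co) {P : MvPolynomial ι L} {d : ℕ} (hP : P.IsHomogeneous d) :
    P ∈ J ↔ ∀ p, eval (co p) P = 0 := by
  refine ⟨fun hJ p => h.zero p P hJ, fun hz => ?_⟩
  rw [← h.prime.radical, ← vanishingIdeal_zeroLocus_eq_radical (K := L), mem_vanishingIdeal_iff]
  intro v hv
  obtain ⟨p, c, rfl⟩ : ∃ p, ∃ c : L, v = c • co p := by
    by_cases h0 : v = 0
    · obtain ⟨p⟩ := ‹Nonempty A›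
      exact ⟨p, 0, by rw [h0, zero_smul]⟩
    · exact (h.bij v h0 hv).exists
  exact (Av.aeval_mul_of_hom hP c (co p)).trans (by
    rw [show aeval (co p) P = 0 from hz p, mul_zero])

theorem Pts.exists_X (h : Pts J co) : ∃ j, X j ∉ J := by
  obtain ⟨p⟩ := ‹Nonempty A›
  obtain ⟨j, hj⟩ := Function.ne_iff.1 (h.ne p)
  exact ⟨j, fun hJ => hj (by simpa using h.zero p _ hJ)⟩

theorem mor1_ev {Q : MvPolynomial κ L} {n : ℕ} (hQ : Q.IsHomogeneous n) {α : κ → MvPolynomial ι L}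
    {x : ι → L} {y : κ → L} {c : L} (hc : ∀ a, eval x (α a) = c * y a) :
    eval x (aeval α Q) = c ^ n * eval y Q := by
  have e : eval x (aeval α Q) = aeval (fun a => aeval x (α a)) Q :=
    DFunLike.congr_fun (comp_aeval α (aeval x)) Q
  rw [e, show (fun a => aeval x (α a)) = fun a => c * y a from funext hc]
  exact Av.aeval_mul_of_hom hQ c y

/-- `Pts.mem_iff`; for `map` reduce to the homogeneous components of `P`
(`sum_homogeneousComponent`, `IsHomogeneous.aeval`). -/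
theorem Pts.inv (h : Pts J co) (h' : Pts J' co') {d d' : ℕ} {α : κ → MvPolynomial ι L}
    {β : ι → MvPolynomial κ L} (hα : ∀ a, (α a).IsHomogeneous d) (hβ : ∀ a, (β a).IsHomogeneous d')
    {p₀ : A} (h1 : ∃ a, eval (co p₀) (α a) ≠ 0) (h2 : ∃ a, eval (co' p₀) (β a) ≠ 0)
    (h3 : ∀ p, ∃ c : L, ∀ a, eval (co p) (α a) = c * co' p a)
    (h4 : ∀ p, ∃ c : L, ∀ a, eval (co' p) (β a) = c * co p a) : Inv J J' α β := by
  refine ⟨⟨d, hα⟩, fun P hP => ?_, ?_, fun i l => ?_⟩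
  · rw [← sum_homogeneousComponent P, map_sum]
    refine Ideal.sum_mem _ fun n _ => ?_
    have hn := homogeneousComponent_isHomogeneous n P
    refine (h.mem_iff (hn.aeval α hα)).2 fun p => ?_
    obtain ⟨c, hc⟩ := h3 p
    rw [mor1_ev hn hc, h'.zero p _ (h'.hom P hP n), mul_zero]
  · obtain ⟨a, ha⟩ := h1
    obtain ⟨i, hi⟩ := h2
    obtain ⟨c, hc⟩ := h3 p₀
    refine ⟨i, fun hJ => ?_⟩
    have := h.zero p₀ _ hJ
    rw [mor1_ev (hβ i) hc] at this
    exact mul_ne_zero (pow_ne_zero _ (left_ne_zero_of_mul (hc a ▸ ha))) hi this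
  · refine (h.mem_iff ((((hβ i).aeval α hα).mul (isHomogeneous_X L l)).sub
      (((hβ l).aeval α hα).mul (isHomogeneous_X L i)))).2 fun p => ?_
    obtain ⟨c, hc⟩ := h3 p
    obtain ⟨e, he⟩ := h4 p
    rw [map_sub, map_mul, map_mul, mor1_ev (hβ i) hc, mor1_ev (hβ l) hc, he, he, eval_X, eval_X]
    ring

theorem Pts.birat (h : Pts J co) (h' : Pts J' co') (h1 : Mor co co') (h2 : Mor co' co) :
    Birat J J' := by
  obtain ⟨p₀⟩ := ‹Nonempty A›
  obtain ⟨d, α, a1, a2, a3⟩ := h1 p₀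
  obtain ⟨d', β, b1, b2, b3⟩ := h2 p₀
  exact ⟨α, β, h.inv h' a1 b1 a2 b2 a3 b3, h'.inv h b1 a1 b2 a2 b3 a3⟩

end Pool.Agent.Lib.MP_651af7_nt.Ds
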