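import Pool.Agent.Lib.MP_651af7_nt.Ds.Iface
import Pool.Agent.Lib.MP_651af7_nt.Bx.Defs
import Pool.Agent.Lib.MP_651af7_nt.Av.Pt

/-! Descent of a model to a finite extension. -/

namespace Pool.Agent.Lib.MP_651af7_nt.Ds

open MvPolynomial Bx

set_option linter.unusedSectionVars false

section

variable {K Ω : Type} [Field K] [Field Ω] [Algebra K Ω] {ι κ σ : Type}

/-- The polynomials over `K` that lie in `J`. -/
noncomputable def dn (K : Type) [Field K] [Algebra K Ω] (J : Ideal (MvPolynomial σ Ω)) :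
    Ideal (MvPolynomial σ K) := J.comap (MvPolynomial.map (algebraMap K Ω))

theorem mem_dn {J : Ideal (MvPolynomial σ Ω)} {P : MvPolynomial σ K} :
    P ∈ dn K J ↔ MvPolynomial.map (algebraMap K Ω) P ∈ J := Iff.rfl

/-- `map` commutes with `homogeneousComponent` (compare coefficients). -/
theorem dn_hom {J : Ideal (MvPolynomial σ Ω)} (h : ∀ P ∈ J, ∀ d, homogeneousComponent d P ∈ J) :
    ∀ P ∈ dn K J, ∀ d, homogeneousComponent d P ∈ dn K J := by
  intro P hP d
  have h1 : MvPolynomial.map (algebraMap K Ω) (homogeneousComponent d P) =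
      homogeneousComponent d (MvPolynomial.map (algebraMap K Ω) P) := by
    ext m
    simp only [coeff_map, coeff_homogeneousComponent, apply_ite (algebraMap K Ω), map_zero]
  rw [mem_dn, h1]
  exact h _ hP d

theorem dn_map {J : Ideal (MvPolynomial σ Ω)} {s : Set (MvPolynomial σ Ω)} (h : J = Ideal.span s)
    (hs : s ⊆ Set.range (MvPolynomial.map (algebraMap K Ω))) :
    (dn K J).map (MvPolynomial.map (algebraMap K Ω)) = J := by
  refine Ideal.map_comap_le.antisymm (h.le.trans (Ideal.span_le.2 fun P hP => ?_))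
  obtain ⟨Q, rfl⟩ := hs hP
  exact Ideal.mem_map_of_mem _ (mem_dn.2 (h ▸ Ideal.subset_span hP))

theorem wh_of_map {M : Type} [AddCommMonoid M] {w : σ → M} {d : M} {P : MvPolynomial σ K}
    (h : (MvPolynomial.map (algebraMap K Ω) P).IsWeightedHomogeneous w d) :
    P.IsWeightedHomogeneous w d := by
  intro m hm
  refine h ?_
  rwa [coeff_map, map_ne_zero]

/-- `map f (aeval φ P) = aeval (fun j => map f (φ j)) (map f P)` (`map_bind₁`). -/
theorem inv_dn {I : Ideal (MvPolynomial ι Ω)} {J : Ideal (MvPolynomial κ Ω)}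
    {φ : κ → MvPolynomial ι K} {ψ : ι → MvPolynomial κ K}
    (h : Inv I J (fun j => MvPolynomial.map (algebraMap K Ω) (φ j))
      fun i => MvPolynomial.map (algebraMap K Ω) (ψ i)) : Inv (dn K I) (dn K J) φ ψ := by
  have e : ∀ {α β : Type} (χ : α → MvPolynomial β K) (P : MvPolynomial α K),
      MvPolynomial.map (algebraMap K Ω) (aeval χ P) =
        aeval (fun j => MvPolynomial.map (algebraMap K Ω) (χ j))
          (MvPolynomial.map (algebraMap K Ω) P) := fun χ P => map_bind₁ _ χ P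
  obtain ⟨a, ha⟩ := h.hom
  obtain ⟨i, hi⟩ := h.ne
  refine ⟨⟨a, fun j => wh_of_map (ha j)⟩, fun P hP => ?_, ⟨i, ?_⟩, fun i l => ?_⟩
  · rw [mem_dn, e]
    exact h.map _ hP
  · rwa [mem_dn, e]
  · rw [mem_dn, map_sub, map_mul, map_mul, e, e, map_X, map_X]
    exact h.id i l

end

variable {k Ω : Type} [Field k] [Field Ω] [Algebra k Ω] [Algebra.IsAlgebraic k Ω]

/-- Adjoin the finitely many coefficients (`mem_range_map_iff_coeffs_subset`,
`IntermediateField.finiteDimensional_adjoin`). -/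
theorem exists_field {σ₁ σ₂ σ₃ : Type} {s₁ : Set (MvPolynomial σ₁ Ω)} {s₂ : Set (MvPolynomial σ₂ Ω)}
    {s₃ : Set (MvPolynomial σ₃ Ω)} (h₁ : s₁.Finite) (h₂ : s₂.Finite) (h₃ : s₃.Finite) :
    ∃ K : IntermediateField k Ω, FiniteDimensional k K ∧
      s₁ ⊆ Set.range (MvPolynomial.map (algebraMap K Ω)) ∧
      s₂ ⊆ Set.range (MvPolynomial.map (algebraMap K Ω)) ∧
      s₃ ⊆ Set.range (MvPolynomial.map (algebraMap K Ω)) := by
  classical
  have key : ∀ {σ : Type} {s : Set (MvPolynomial σ Ω)}, s.Finite → ∃ t : Set Ω, t.Finite ∧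
      ∀ K : IntermediateField k Ω, t ⊆ K → s ⊆ Set.range (MvPolynomial.map (algebraMap K Ω)) :=
    fun {σ s} h => ⟨⋃ P ∈ s, (P.coeffs : Set Ω), h.biUnion fun P _ => P.coeffs.finite_toSet,
      fun K hK P hP => mem_range_map_iff_coeffs_subset.2 fun c hc =>
        ⟨⟨c, hK (Set.mem_biUnion hP hc)⟩, rfl⟩⟩
  obtain ⟨t₁, a₁, b₁⟩ := key h₁
  obtain ⟨t₂, a₂, b₂⟩ := key h₂
  obtain ⟨t₃, a₃, b₃⟩ := key h₃
  have : Finite (t₁ ∪ t₂ ∪ t₃ : Set Ω) := ((a₁.union a₂).union a₃).to_subtype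
  have hs := IntermediateField.subset_adjoin k (t₁ ∪ t₂ ∪ t₃)
  exact ⟨IntermediateField.adjoin k (t₁ ∪ t₂ ∪ t₃), IntermediateField.finiteDimensional_adjoin
    fun x _ => (Algebra.IsAlgebraic.isAlgebraic x).isIntegral,
    b₁ _ fun x hx => hs (Or.inl (Or.inl hx)), b₂ _ fun x hx => hs (Or.inl (Or.inr hx)),
    b₃ _ fun x hx => hs (Or.inr hx)⟩

/-- `exists_field` for generators of `J` together with `ψ`, for `φ`, and for `Φ`; then
`Av.exists_av Ω (dn K J)` (`dn_hom`, `dn_map`, `wh_of_map`, `eval_map`, `aeval_def`) and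
`inv_dn`. -/
theorem descend [IsAlgClosed Ω] [CharZero k] {ι κ A : Type} [Finite ι] [Finite κ] [AddCommGroup A]
    {I : Ideal (MvPolynomial κ Ω)} {J : Ideal (MvPolynomial ι Ω)} {co : A → ι → Ω}
    {Φ : ι → ι → MvPolynomial (ι ⊕ ι) Ω} (h : Pts J co) (hΦ : Sq co Φ) (hb : Birat I J) :
    ∃ K : IntermediateField k Ω, FiniteDimensional k K ∧
      ∃ B : Av.AV K ι, Birat (dn K I) B.I := by
  obtain ⟨φ, ψ, h1, h2⟩ := hb
  obtain ⟨s, hs⟩ : J.FG := IsNoetherian.noetherian J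
  obtain ⟨K, hK, a1, a2, a3⟩ := exists_field (k := k)
    (s.finite_toSet.union (Set.finite_range ψ)) (Set.finite_range φ)
    (Set.finite_range fun p : ι × ι => Φ p.1 p.2)
  choose ψ' hψ using fun i => a1 (Set.mem_union_right _ ⟨i, rfl⟩)
  choose φ' hφ using fun j => a2 ⟨j, rfl⟩
  choose Φ' hΦ' using fun a b => a3 ⟨(a, b), rfl⟩
  obtain rfl : φ = fun j => MvPolynomial.map (algebraMap K Ω) (φ' j) := (funext hφ).symm
  obtain rfl : ψ = fun i => MvPolynomial.map (algebraMap K Ω) (ψ' i) := (funext hψ).symm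
  have hm := dn_map (K := K) hs.symm (Set.subset_union_left.trans a1)
  have ev : ∀ {σ : Type} (v : σ → Ω) (P : MvPolynomial σ K),
      aeval v P = eval v (MvPolynomial.map (algebraMap K Ω) P) := fun v P => by
    rw [eval_map, aeval_def]
  obtain ⟨B, hB, -⟩ := Av.exists_av Ω (dn K J) (dn_hom h.hom) (hm.symm ▸ h.prime) A co h.ne
    (fun x P hP => (ev _ P).trans (h.zero x _ hP))
    (fun v hv hz => h.bij v hv fun P hP => by
      have : (dn K J).map (MvPolynomial.map (algebraMap K Ω)) ≤ RingHom.ker (eval v) :=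
        Ideal.map_le_iff_le_comap.2 fun Q hQ => (ev v Q).symm.trans (hz Q hQ)
      exact this (hm.symm ▸ hP))
    Φ' (fun a b => wh_of_map (Ω := Ω) ((hΦ' a b).symm ▸ hΦ.1 a b)) fun x y => by
      obtain ⟨c, hc, e⟩ := hΦ.2 x y
      exact ⟨c, hc, fun a b => by rw [ev, hΦ' a b, e]⟩
  exact ⟨K, hK, B, φ', ψ', hB ▸ inv_dn h1, hB ▸ inv_dn h2⟩

end Pool.Agent.Lib.MP_651af7_nt.Ds
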