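import Pool.Agent.Lib.MP_651af7_nt.Ds.Mor
import Pool.Agent.Lib.MP_651af7_nt.Ds.Tan
import Pool.Agent.Lib.MP_651af7_nt.Ds.Ht
import Pool.Agent.Lib.MP_651af7_nt.Bx.Main
import Pool.Agent.Lib.MP_651af7_nt.Bx.Trans

/-! The inequality over the ground field from the model over the algebraic closure. -/

namespace Pool.Agent.Lib.MP_651af7_nt.Ds

open MvPolynomial Bx Module NumberField Height

theorem of_model {k : Type} [Field k] [NumberField k] {ι κ : Type} [Fintype ι] [Fintype κ] {g : ℕ}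
    {I : Ideal (MvPolynomial κ k)} (hI : Var I) (hs : Smooth I g)
    {J : Ideal (MvPolynomial ι (AlgebraicClosure k))} {A : Type} [AddCommGroup A]
    {co : A → ι → AlgebraicClosure k} (hJ : Pts J co) (hm : HasModel co)
    (hb : Birat (I.map (MvPolynomial.map (algebraMap k (AlgebraicClosure k)))) J) {ε : ℝ}
    (hε : 0 < ε) : ∃ (Θ : MvPolynomial κ k) (t : ℕ), Θ.IsHomogeneous t ∧ Θ ∉ I ∧
      ∀ (m e : ℕ) (D : Fin m → MvPolynomial κ k) (S : Finset (FinitePlace k)),
      (∀ j, (D j).IsHomogeneous e) → ∃ C : ℝ, ∀ x : κ → k, x ≠ 0 → (∀ P ∈ I, eval x P = 0) →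
        eval x Θ ≠ 0 → (fun j => eval x (D j)) ≠ 0 → finrank k (tsp I x) = g + 1 ∧
        ∀ β : Fin (g + 1) → κ → k, LinearIndependent k β → (∀ l, β l ∈ tsp I x) →
        (∑ w : InfinitePlace k, w.mult * lam w.1 D e x + ∑ w ∈ S, lam w.1 D e x) + hK x β ≤
          ε * logHeight x + C := by
  obtain ⟨m, J', co', Φ, h1, h2, h3, h4⟩ := hm
  have : Nonempty A := ⟨0⟩
  obtain ⟨K, hK', B, hB⟩ := descend (k := k) h1 h2
    (hb.trans hI.prime hJ.prime h1.prime hJ.exists_X (hJ.birat h1 h3 h4))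
  have : NumberField K := NumberField.of_module_finite k K
  obtain ⟨Θ, t, t1, t2, t3⟩ := Bx.main B (var_up hI) (smooth_up hs) hB hε
  obtain ⟨Θ₀, u1, u2, u3⟩ := exists_theta (I := I) t1 fun h => t2 (map_le_up h)
  refine ⟨Θ₀, t, u1, u2, fun m e D S hD => ?_⟩
  obtain ⟨T, hT⟩ := sum_fin (K := K) (ι := κ) (α := Fin m) S
  obtain ⟨C, hC⟩ := t3 m e (fun j => MvPolynomial.map (algebraMap k K) (D j)) T
    fun j => (hD j).map _
  have hn : (0 : ℝ) < finrank k K := Nat.cast_pos.2 finrank_pos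
  have hne : ∀ {F : Type} [Field F] [Algebra k F] {α : Type} {y : α → k}, y ≠ 0 →
      (fun a => algebraMap k F (y a)) ≠ 0 := fun h h' =>
    h (funext fun a => (map_eq_zero _).1 (congrFun h' a))
  have hev : ∀ {F : Type} [Field F] [Algebra k F] (x : κ → k) (P : MvPolynomial κ k),
      aeval (fun a => algebraMap k F (x a)) P = algebraMap k F (eval x P) := fun x P => by
    rw [← aeval_eq_eval, ← aeval_algebraMap_apply]
    rfl
  refine ⟨C / finrank k K, fun x x0 xz xΘ xD => ⟨?_, fun β b1 b2 => ?_⟩⟩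
  · rw [← finrank_tsp (F := AlgebraicClosure k)]
    exact hs _ (hne x0) fun P hP => by rw [hev, xz P hP, map_zero]
  have e1 : (fun j => eval (fun a => algebraMap k K (x a))
      (MvPolynomial.map (algebraMap k K) (D j))) = fun j => algebraMap k K (eval x (D j)) :=
    funext fun j => by rw [eval_map, ← aeval_def, hev]
  have e2 := hC _ (hne x0) (zero_up xz) (u3 x xΘ) (e1 ▸ hne xD)
    (fun l a => algebraMap k K (β l a)) (linearIndependent_algebraMap_comp_iff.2 b1)
    fun l => tsp_up xz (b2 l)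
  rw [sum_inf D e x0 xD, hT D e x x0 xD, hK_alg, MP_651af7_nt.Final.logHeight_algebraMap] at e2
  refine le_of_mul_le_mul_left ?_ hn
  rw [mul_add _ (ε * _), mul_div_cancel₀ _ hn.ne']
  linarith

end Pool.Agent.Lib.MP_651af7_nt.Ds
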